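import Pool.Agent.Lib.MP_8251dc_co.SP.SDefs

set_option autoImplicit false

open Finset

namespace RegBool

variable {m n r : ℕ}

theorem ndn_eq (p : Fin r → Fin r → Bool) : ndn p = downs p := by
  unfold ndn downs
  convert rfl

open Classical in
theorem cls_eq (r : ℕ) : cls (Fin r) (fun _ => True) = (posets r).filter fun p => NF p := by
  ext p
  unfold cls posets IsPO
  simp only [mem_filter, mem_univ, true_and, and_true]

theorem nf_iff {A : Fin m → Fin n → Bool} {e : Fin r → Fin n → Bool}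
    (he : univ.image e = basisRows A) : NFreeMat A ↔ NF (ord e) := by
  have h1 : ∀ i, e i ∈ basisRows A := fun i => by
    rw [← he]
    exact mem_image_of_mem _ (mem_univ _)
  constructor
  · intro h a b c d hac hbc hbd
    rw [ord_true] at hac hbc hbd ⊢
    rw [ord_true, ord_true]
    exact h _ (h1 a) _ (h1 b) _ (h1 c) _ (h1 d) hac hbc hbd
  · intro h a ha b hb c hc d hd hac hbc hbd
    rw [← he, mem_image] at ha hb hc hd
    obtain ⟨i, -, rfl⟩ := ha
    obtain ⟨j, -, rfl⟩ := hb
    obtain ⟨k, -, rfl⟩ := hc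
    obtain ⟨l, -, rfl⟩ := hd
    have := h i j k l (ord_true.2 hac) (ord_true.2 hbc) (ord_true.2 hbd)
    rwa [ord_true, ord_true, ord_true] at this

open Classical in
theorem card_S2N (m n r : ℕ) : ((S2 m n r).filter fun y => NFreeMat y.1).card =
    r.factorial * Nat.card {A : Fin m → Fin n → Bool //
      (Regular A ∧ NFreeMat A) ∧ rowRank A = r} := by
  rw [Nat.card_eq_fintype_card, Fintype.card_subtype,
    card_eq_sum_card_fiberwise (f := Prod.fst)
      (t := univ.filter fun A : Fin m → Fin n → Bool => (Regular A ∧ NFreeMat A) ∧ rowRank A = r)]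
  · rw [mul_comm, ← smul_eq_mul, ← sum_const]
    refine sum_congr rfl fun A hA => ?_
    obtain ⟨-, ⟨hR, hN⟩, hr⟩ := mem_filter.1 hA
    rw [← card_enum (basisRows A) hr]
    refine card_bij' (fun y _ => y.2) (fun e _ => (A, e)) ?_ ?_ ?_ ?_
    · rintro ⟨A', e⟩ hy
      obtain ⟨h1, h2⟩ := mem_filter.1 hy
      obtain ⟨h1, -⟩ := mem_filter.1 h1
      obtain ⟨-, -, h3, h4⟩ := mem_filter.1 h1
      have h5 : A' = A := h2
      subst h5
      refine mem_filter.2 ⟨mem_univ _, h3, ?_⟩
      rw [← h4]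
    · intro e he
      obtain ⟨-, h3, h4⟩ := mem_filter.1 he
      refine mem_filter.2 ⟨mem_filter.2 ⟨mem_filter.2 ⟨mem_univ _, hR, h3, ?_⟩, hN⟩, rfl⟩
      rw [← h4]
    · rintro ⟨A', e⟩ hy
      obtain ⟨-, h2⟩ := mem_filter.1 hy
      have h5 : A' = A := h2
      rw [h5]
    · intro e _
      rfl
  · rintro ⟨A, e⟩ hy
    obtain ⟨hy, hN⟩ := mem_filter.1 hy
    obtain ⟨-, hR, he, hA⟩ := mem_filter.1 hy
    refine mem_filter.2 ⟨mem_univ _, ⟨hR, hN⟩, ?_⟩
    have h1 : (univ.image e).card = r := by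
      rw [card_image_of_injective _ he, card_univ, Fintype.card_fin]
    change (basisRows A).card = r
    exact (congrArg card hA.symm).trans h1

open Classical in
theorem card_rankN (m n r : ℕ) :
    (r.factorial : ℤ) * (Nat.card {A : Fin m → Fin n → Bool //
      (Regular A ∧ NFreeMat A) ∧ rowRank A = r} : ℤ) =
      ∑ p ∈ (posets r).filter (fun p => NF p), hit m (downs p) r * hit n (downs p) r := by
  have h1 : (r.factorial : ℤ) * (Nat.card {A : Fin m → Fin n → Bool //
      (Regular A ∧ NFreeMat A) ∧ rowRank A = r} : ℤ) =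
        (((S2 m n r).filter fun y => NFreeMat y.1).card : ℤ) := by
    rw [card_S2N]
    push_cast
    rfl
  rw [h1, card_eq_sum_card_fiberwise (f := fun y => ord y.2)
    (t := (posets r).filter fun p => NF p), Nat.cast_sum]
  · refine sum_congr rfl fun p hp => ?_
    obtain ⟨hp, hN⟩ := mem_filter.1 hp
    rw [← card_fib1 hp, card_fib, filter_filter]
    congr 2
    ext y
    rw [mem_filter, mem_filter]
    constructor
    · rintro ⟨h2, -, h3⟩
      exact ⟨h2, h3⟩
    · rintro ⟨h2, h3⟩
      refine ⟨h2, ?_, h3⟩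
      obtain ⟨-, -, -, hA⟩ := mem_filter.1 h2
      have hA' : univ.image y.2 = basisRows y.1 := by
        rw [← hA]
      rw [nf_iff hA', h3]
      exact hN
  · rintro ⟨A, e⟩ hy
    obtain ⟨hy, hN⟩ := mem_filter.1 hy
    obtain ⟨-, hR, he, hA⟩ := mem_filter.1 hy
    have hA' : univ.image e = basisRows A := by
      rw [← hA]
    exact mem_filter.2 ⟨ord_mem he, (nf_iff hA').1 hN⟩

theorem N_eq_sum (m n : ℕ) : Nat.card {A : Fin m → Fin n → Bool // Regular A ∧ NFreeMat A} =
    ∑ r ∈ range (m + 1),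
      Nat.card {A : Fin m → Fin n → Bool // (Regular A ∧ NFreeMat A) ∧ rowRank A = r} := by
  classical
  rw [Nat.card_eq_fintype_card, Fintype.card_subtype,
    card_eq_sum_card_fiberwise (f := rowRank) (t := range (m + 1))]
  · refine sum_congr rfl fun r _ => ?_
    rw [Nat.card_eq_fintype_card, Fintype.card_subtype, filter_filter]
  · intro A _
    exact mem_coe.2 (mem_range.2 (Nat.lt_succ_of_le (rowRank_le A)))

theorem NF_count (m n : ℕ) :
    (Nat.card {A : Fin m → Fin n → Bool // Regular A ∧ NFreeMat A} : ℚ) =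
      form (fun r q => (AA r q : ℚ)) m n := by
  classical
  rw [N_eq_sum, Nat.cast_sum]
  unfold form
  refine sum_congr rfl fun r _ => ?_
  have h0 : (r.factorial : ℚ) ≠ 0 := by exact_mod_cast r.factorial_ne_zero
  rw [eq_div_iff h0, mul_comm]
  have h2 := congrArg (Int.cast (R := ℚ)) (card_rankN m n r)
  push_cast at h2
  rw [h2]
  have h1 : ∀ p ∈ (posets r).filter (fun p => NF p),
      (hit m (downs p) r : ℚ) * (hit n (downs p) r : ℚ) =
      ∑ k ∈ range (m + 1), ∑ l ∈ range (n + 1), (m.choose k : ℚ) * (n.choose l : ℚ) *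
        (w (m - k) r : ℚ) * (w (n - l) r : ℚ) * ((downs p : ℚ) ^ (k + l)) := by
    intro p _
    rw [hit_expand, hit_expand]
    push_cast
    rw [sum_mul_sum]
    refine sum_congr rfl fun k _ => sum_congr rfl fun l _ => ?_
    rw [pow_add]
    ring
  rw [sum_congr rfl h1, sum_comm]
  refine sum_congr rfl fun k _ => ?_
  rw [sum_comm]
  refine sum_congr rfl fun l _ => ?_
  rw [← mul_sum]
  congr 1
  change _ = ((AA r (k + l) : ℤ) : ℚ)
  unfold AA
  rw [cls_eq, Int.cast_sum]
  refine sum_congr rfl fun p _ => ?_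
  rw [ndn_eq]
  push_cast
  rfl

end RegBool
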