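import Pool.Agent.Lib.MP_8251dc_co.Inv

/-!
# Regular matrices with N-free row basis: definitions
-/

set_option autoImplicit false

open Finset

namespace RegBool

/-- The row basis of `A`, ordered by inclusion, is N-free: there are no `a ≤ c ≥ b ≤ d` in it with
`a ≰ d`, `b ≰ a`, `d ≰ c`. -/
def NFreeMat {m n : ℕ} (A : Fin m → Fin n → Bool) : Prop :=
  ∀ a ∈ basisRows A, ∀ b ∈ basisRows A, ∀ c ∈ basisRows A, ∀ d ∈ basisRows A,
    a ≤ c → b ≤ c → b ≤ d → a ≤ d ∨ b ≤ a ∨ d ≤ c

/-- `∑_{j ≤ q} C(q, j) (-1)^(q-j) F(n, j)`. -/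
def sh (F : ℕ → ℕ → ℤ) (n q : ℕ) : ℤ :=
  ∑ j ∈ range (q + 1), (q.choose j : ℤ) * (-1) ^ (q - j) * F n j

/-- The recurrences. -/
structure SPRec (A C D : ℕ → ℕ → ℤ) : Prop where
  a0 : ∀ q, A 0 q = 1
  a1 : ∀ q, A 1 q = 2 ^ q
  c1 : ∀ q, C 1 q = 2 ^ q
  d1 : ∀ q, D 1 q = 2 ^ q
  add : ∀ n q, 2 ≤ n → A n q = C n q + D n q
  disj : ∀ n q, 2 ≤ n → D n q =
    ∑ k ∈ range (n - 1), ((n - 1).choose k : ℤ) * C (k + 1) q * A (n - 1 - k) q
  ord : ∀ n q, 2 ≤ n → sh C n q =
    ∑ k ∈ Ico 1 n, (n.choose k : ℤ) *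
      ∑ j ∈ range (q + 1), (q.choose j : ℤ) * sh D k j * sh A (n - k) (q - j)

section Poset

variable {α : Type} [Fintype α] [DecidableEq α]

/-- Partial orders. -/
def IsPO (p : α → α → Bool) : Prop :=
  (∀ i, p i i = true) ∧ (∀ i j, p i j = true → p j i = true → i = j) ∧
    ∀ i j k, p i j = true → p j k = true → p i k = true

/-- N-free. -/
def NF (p : α → α → Bool) : Prop :=
  ∀ a b c d, p a c = true → p b c = true → p b d = true → p a d = true ∨ p b a = true ∨ p d c = true

/-- Connected: a nonempty union of components is everything. -/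
def Conn (p : α → α → Bool) : Prop :=
  ∀ S : Finset α, S.Nonempty → (∀ i j, p i j = true → (i ∈ S ↔ j ∈ S)) → S = univ

/-- Not an ordinal sum of two nonempty parts: a nonempty set `S` all of whose points are below all
other points is everything. -/
def Ind (p : α → α → Bool) : Prop :=
  ∀ S : Finset α, S.Nonempty → (∀ i ∈ S, ∀ j, j ∉ S → p i j = true) → S = univ

/-- The number of down-sets. -/
def ndn (p : α → α → Bool) : ℕ :=
  (univ.filter fun S : Finset α => ∀ i j, p i j = true → j ∈ S → i ∈ S).card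

open Classical in
/-- The N-free partial orders on `α` with the property `P`. -/
noncomputable def cls (α : Type) [Fintype α] [DecidableEq α] (P : (α → α → Bool) → Prop) :
    Finset (α → α → Bool) :=
  univ.filter fun p => IsPO p ∧ NF p ∧ P p

end Poset

/-- Sums of the powers of the numbers of down-sets of all, of the connected, of the ordinally
indecomposable N-free partial orders on `Fin n`. -/
noncomputable def AA (n q : ℕ) : ℤ := ∑ p ∈ cls (Fin n) (fun _ => True), (ndn p : ℤ) ^ q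

noncomputable def CC (n q : ℕ) : ℤ := ∑ p ∈ cls (Fin n) Conn, (ndn p : ℤ) ^ q

noncomputable def DD (n q : ℕ) : ℤ := ∑ p ∈ cls (Fin n) Ind, (ndn p : ℤ) ^ q

end RegBool
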