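import Pool.Agent.Lib.MP_8251dc_co.SP.STrans

set_option autoImplicit false

open Finset

namespace RegBool

variable {α : Type} [Fintype α] [DecidableEq α]

namespace DisjAux

/-- The disjoint union of two relations. -/
def gl (S : Finset α) (p₁ : {x // x ∈ S} → {x // x ∈ S} → Bool)
    (p₂ : {x // x ∉ S} → {x // x ∉ S} → Bool) (i j : α) : Bool :=
  if h : i ∈ S then (if h' : j ∈ S then p₁ ⟨i, h⟩ ⟨j, h'⟩ else false)
  else (if h' : j ∈ S then false else p₂ ⟨i, h⟩ ⟨j, h'⟩)

section gl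

variable {S : Finset α} {p₁ : {x // x ∈ S} → {x // x ∈ S} → Bool}
  {p₂ : {x // x ∉ S} → {x // x ∉ S} → Bool}

omit [Fintype α] in
theorem gl_in {i j : α} (h : i ∈ S) (h' : j ∈ S) : gl S p₁ p₂ i j = p₁ ⟨i, h⟩ ⟨j, h'⟩ := by
  unfold gl
  rw [dif_pos h, dif_pos h']

omit [Fintype α] in
theorem gl_out {i j : α} (h : i ∉ S) (h' : j ∉ S) : gl S p₁ p₂ i j = p₂ ⟨i, h⟩ ⟨j, h'⟩ := by
  unfold gl
  rw [dif_neg h, dif_neg h']

omit [Fintype α] in
theorem gl_iff {i j : α} : gl S p₁ p₂ i j = true ↔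
    (∃ (h : i ∈ S) (h' : j ∈ S), p₁ ⟨i, h⟩ ⟨j, h'⟩ = true) ∨
      ∃ (h : i ∉ S) (h' : j ∉ S), p₂ ⟨i, h⟩ ⟨j, h'⟩ = true := by
  by_cases h : i ∈ S <;> by_cases h' : j ∈ S <;> simp [gl, h, h']

omit [Fintype α] in
theorem gl_closed {i j : α} (h : gl S p₁ p₂ i j = true) : i ∈ S ↔ j ∈ S := by
  rcases gl_iff.1 h with ⟨h1, h2, -⟩ | ⟨h1, h2, -⟩
  · exact ⟨fun _ => h2, fun _ => h1⟩
  · exact ⟨fun h3 => absurd h3 h1, fun h3 => absurd h3 h2⟩

theorem gl_isPO (h1 : IsPO p₁) (h2 : IsPO p₂) : IsPO (gl S p₁ p₂) := by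
  refine ⟨fun i => ?_, fun i j hij hji => ?_, fun i j k hij hjk => ?_⟩
  · by_cases h : i ∈ S
    · rw [gl_in h h]
      exact h1.1 _
    · rw [gl_out h h]
      exact h2.1 _
  · by_cases h : i ∈ S
    · have h' : j ∈ S := (gl_closed hij).1 h
      rw [gl_in h h'] at hij
      rw [gl_in h' h] at hji
      exact congrArg Subtype.val (h1.2.1 _ _ hij hji)
    · have h' : j ∉ S := fun h3 => h ((gl_closed hij).2 h3)
      rw [gl_out h h'] at hij
      rw [gl_out h' h] at hji
      exact congrArg Subtype.val (h2.2.1 _ _ hij hji)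
  · by_cases h : i ∈ S
    · have h' : j ∈ S := (gl_closed hij).1 h
      have h'' : k ∈ S := (gl_closed hjk).1 h'
      rw [gl_in h h'] at hij
      rw [gl_in h' h''] at hjk
      rw [gl_in h h'']
      exact h1.2.2 _ _ _ hij hjk
    · have h' : j ∉ S := fun h3 => h ((gl_closed hij).2 h3)
      have h'' : k ∉ S := fun h3 => h' ((gl_closed hjk).2 h3)
      rw [gl_out h h'] at hij
      rw [gl_out h' h''] at hjk
      rw [gl_out h h'']
      exact h2.2.2 _ _ _ hij hjk

theorem gl_NF (h1 : NF p₁) (h2 : NF p₂) : NF (gl S p₁ p₂) := by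
  intro a b c d hac hbc hbd
  by_cases ha : a ∈ S
  · have hc : c ∈ S := (gl_closed hac).1 ha
    have hb : b ∈ S := (gl_closed hbc).2 hc
    have hd : d ∈ S := (gl_closed hbd).1 hb
    rw [gl_in ha hc] at hac
    rw [gl_in hb hc] at hbc
    rw [gl_in hb hd] at hbd
    rw [gl_in ha hd, gl_in hb ha, gl_in hd hc]
    exact h1 _ _ _ _ hac hbc hbd
  · have hc : c ∉ S := fun h => ha ((gl_closed hac).2 h)
    have hb : b ∉ S := fun h => hc ((gl_closed hbc).1 h)
    have hd : d ∉ S := fun h => hb ((gl_closed hbd).2 h)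
    rw [gl_out ha hc] at hac
    rw [gl_out hb hc] at hbc
    rw [gl_out hb hd] at hbd
    rw [gl_out ha hd, gl_out hb ha, gl_out hd hc]
    exact h2 _ _ _ _ hac hbc hbd

theorem gl_not_conn {a₀ : α} (ha : a₀ ∈ S) (hS : S ≠ univ) : ¬ Conn (gl S p₁ p₂) :=
  fun h => hS (h S ⟨a₀, ha⟩ fun _ _ hij => gl_closed hij)

theorem ndn_gl : ndn (gl S p₁ p₂) = ndn p₁ * ndn p₂ := by
  classical
  unfold ndn
  rw [← Finset.card_product]
  refine Finset.card_nbij' (fun T => (T.subtype (· ∈ S), T.subtype (· ∉ S)))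
    (fun U => univ.filter fun x => if h : x ∈ S then (⟨x, h⟩ : {x // x ∈ S}) ∈ U.1 else
      (⟨x, h⟩ : {x // x ∉ S}) ∈ U.2) ?_ ?_ ?_ ?_
  · intro T hT
    have hT' := (Finset.mem_filter.1 (Finset.mem_coe.1 hT)).2
    rw [Finset.mem_coe, Finset.mem_product, Finset.mem_filter, Finset.mem_filter]
    refine ⟨⟨Finset.mem_univ _, fun i j hij hj => ?_⟩, ⟨Finset.mem_univ _, fun i j hij hj => ?_⟩⟩
    · rw [Finset.mem_subtype] at hj ⊢
      exact hT' i j (by rw [gl_in i.2 j.2]; exact hij) hj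
    · rw [Finset.mem_subtype] at hj ⊢
      exact hT' i j (by rw [gl_out i.2 j.2]; exact hij) hj
  · intro U hU
    rw [Finset.mem_coe, Finset.mem_product, Finset.mem_filter, Finset.mem_filter] at hU
    obtain ⟨⟨-, h1⟩, -, h2⟩ := hU
    rw [Finset.mem_coe, Finset.mem_filter]
    refine ⟨Finset.mem_univ _, fun i j hij hj => ?_⟩
    rw [Finset.mem_filter] at hj ⊢
    refine ⟨Finset.mem_univ _, ?_⟩
    obtain ⟨-, hj⟩ := hj
    by_cases h : i ∈ S
    · have h' : j ∈ S := (gl_closed hij).1 h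
      rw [dif_pos h]
      rw [dif_pos h'] at hj
      rw [gl_in h h'] at hij
      exact h1 _ _ hij hj
    · have h' : j ∉ S := fun h3 => h ((gl_closed hij).2 h3)
      rw [dif_neg h]
      rw [dif_neg h'] at hj
      rw [gl_out h h'] at hij
      exact h2 _ _ hij hj
  · intro T _
    ext x
    by_cases h : x ∈ S <;> simp [h]
  · rintro ⟨U1, U2⟩ _
    refine Prod.ext ?_ ?_
    · ext ⟨x, hx⟩
      simp [hx]
    · ext ⟨x, hx⟩
      simp [hx]

end gl

open Classical in
/-- The component of `a`. -/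
noncomputable def cmpn (p : α → α → Bool) (a : α) : Finset α :=
  univ.filter fun x => ∀ T : Finset α, a ∈ T → (∀ i j, p i j = true → (i ∈ T ↔ j ∈ T)) → x ∈ T

section cmpn

variable {p : α → α → Bool} {a : α}

theorem mem_cmpn {x : α} : x ∈ cmpn p a ↔
    ∀ T : Finset α, a ∈ T → (∀ i j, p i j = true → (i ∈ T ↔ j ∈ T)) → x ∈ T := by
  classical
  unfold cmpn
  rw [Finset.mem_filter]
  exact ⟨fun h => h.2, fun h => ⟨Finset.mem_univ _, h⟩⟩

theorem self_mem : a ∈ cmpn p a := mem_cmpn.2 fun _ h _ => h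

theorem cmpn_closed {i j : α} (h : p i j = true) : i ∈ cmpn p a ↔ j ∈ cmpn p a := by
  rw [mem_cmpn, mem_cmpn]
  constructor
  · intro h1 T hT hc
    exact (hc i j h).1 (h1 T hT hc)
  · intro h1 T hT hc
    exact (hc i j h).2 (h1 T hT hc)

theorem cmpn_sub {T : Finset α} (hT : a ∈ T) (hc : ∀ i j, p i j = true → (i ∈ T ↔ j ∈ T)) :
    cmpn p a ⊆ T := fun _ hx => mem_cmpn.1 hx T hT hc

theorem cmpn_ne (h : ¬ Conn p) : cmpn p a ≠ univ := by
  intro h1
  apply h
  intro U hU hc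
  by_cases ha : a ∈ U
  · have h2 := cmpn_sub ha hc
    rw [h1] at h2
    exact Finset.univ_subset_iff.1 h2
  · exfalso
    have h2 : cmpn p a ⊆ Uᶜ := cmpn_sub (Finset.mem_compl.2 ha) fun i j hij => by
      rw [Finset.mem_compl, Finset.mem_compl, hc i j hij]
    obtain ⟨x, hx⟩ := hU
    have h3 := h2 (by rw [h1]; exact Finset.mem_univ x)
    exact (Finset.mem_compl.1 h3) hx

theorem conn_res : Conn (fun i j : {x // x ∈ cmpn p a} => p i j) := by
  classical
  intro U hU hc
  have hcl : ∀ i j, p i j = true → (i ∈ U.map (Function.Embedding.subtype _) ↔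
      j ∈ U.map (Function.Embedding.subtype _)) := by
    intro i j hij
    constructor
    · intro h
      obtain ⟨x, hx, rfl⟩ := Finset.mem_map.1 h
      have hj : j ∈ cmpn p a := (cmpn_closed hij).1 x.2
      exact Finset.mem_map.2 ⟨⟨j, hj⟩, (hc x ⟨j, hj⟩ hij).1 hx, rfl⟩
    · intro h
      obtain ⟨x, hx, rfl⟩ := Finset.mem_map.1 h
      have hi : i ∈ cmpn p a := (cmpn_closed hij).2 x.2
      exact Finset.mem_map.2 ⟨⟨i, hi⟩, (hc ⟨i, hi⟩ x hij).2 hx, rfl⟩
  by_cases ha : a ∈ U.map (Function.Embedding.subtype _)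
  · have h1 := cmpn_sub ha hcl
    refine Finset.eq_univ_iff_forall.2 fun x => ?_
    obtain ⟨y, hy, hxy⟩ := Finset.mem_map.1 (h1 x.2)
    have : y = x := Subtype.ext hxy
    rw [← this]
    exact hy
  · exfalso
    have h1 : cmpn p a ⊆ (U.map (Function.Embedding.subtype _))ᶜ :=
      cmpn_sub (Finset.mem_compl.2 ha) fun i j hij => by
        rw [Finset.mem_compl, Finset.mem_compl, hcl i j hij]
    obtain ⟨x, hx⟩ := hU
    exact (Finset.mem_compl.1 (h1 x.2)) (Finset.mem_map.2 ⟨x, hx, rfl⟩)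

theorem cmpn_gl {S : Finset α} {p₁ : {x // x ∈ S} → {x // x ∈ S} → Bool}
    {p₂ : {x // x ∉ S} → {x // x ∉ S} → Bool} (h1 : Conn p₁) (ha : a ∈ S) :
    cmpn (gl S p₁ p₂) a = S := by
  refine Finset.Subset.antisymm (cmpn_sub ha fun _ _ hij => gl_closed hij) fun x hx => ?_
  refine mem_cmpn.2 fun T hT hc => ?_
  have h2 := h1 (T.subtype (· ∈ S)) ⟨⟨a, ha⟩, Finset.mem_subtype.2 hT⟩ fun i j hij => by
    rw [Finset.mem_subtype, Finset.mem_subtype]
    exact hc i j (by rw [gl_in i.2 j.2]; exact hij)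
  have h3 : (⟨x, hx⟩ : {x // x ∈ S}) ∈ T.subtype (· ∈ S) := by
    rw [h2]
    exact Finset.mem_univ _
  exact Finset.mem_subtype.1 h3

end cmpn

theorem mem_cls_iff {P : (α → α → Bool) → Prop} {p : α → α → Bool} :
    p ∈ cls α P ↔ IsPO p ∧ NF p ∧ P p := by
  classical
  unfold cls
  rw [Finset.mem_filter]
  exact ⟨fun h => h.2, fun h => ⟨Finset.mem_univ _, h⟩⟩

end DisjAux

open DisjAux in
/-- Disjoint unions `p = p₁ ⊔ p₂` on `S` and its complement, `p₁` connected and `a₀ ∈ S ≠ univ`. -/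
theorem disj_sum (a₀ : α) (f : ℕ → ℤ) (hf : ∀ a b, f (a * b) = f a * f b) :
    ∑ p ∈ cls α (fun p => ¬ Conn p), f (ndn p) =
      ∑ S ∈ (univ.filter fun S : Finset α => a₀ ∈ S ∧ S ≠ univ),
        (∑ p ∈ cls {x // x ∈ S} Conn, f (ndn p)) *
          ∑ p ∈ cls {x // x ∉ S} (fun _ => True), f (ndn p) := by
  classical
  rw [← Finset.sum_fiberwise_of_maps_to (s := cls α (fun p => ¬ Conn p))
    (t := univ.filter fun S : Finset α => a₀ ∈ S ∧ S ≠ univ) (g := fun p => cmpn p a₀)]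
  · refine Finset.sum_congr rfl fun S hS => ?_
    obtain ⟨-, hS0, hS1⟩ := Finset.mem_filter.1 hS
    rw [Finset.sum_mul_sum, ← Finset.sum_product']
    refine Finset.sum_nbij' (fun p => ((fun i j => p i j), fun i j => p i j))
      (fun P => gl S P.1 P.2) ?_ ?_ ?_ ?_ ?_
    · intro p hp
      rw [Finset.mem_filter] at hp
      obtain ⟨hp, hpS⟩ := hp
      obtain ⟨hPO, hNF, -⟩ := mem_cls_iff.1 hp
      rw [Finset.mem_product]
      refine ⟨mem_cls_iff.2 ⟨?_, ?_, ?_⟩, mem_cls_iff.2 ⟨?_, ?_, trivial⟩⟩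
      · exact ⟨fun i => hPO.1 i, fun i j h h' => Subtype.ext (hPO.2.1 i j h h'),
          fun i j k h h' => hPO.2.2 i j k h h'⟩
      · exact fun a b c d h h' h'' => hNF a b c d h h' h''
      · subst hpS
        exact conn_res
      · exact ⟨fun i => hPO.1 i, fun i j h h' => Subtype.ext (hPO.2.1 i j h h'),
          fun i j k h h' => hPO.2.2 i j k h h'⟩
      · exact fun a b c d h h' h'' => hNF a b c d h h' h''
    · rintro ⟨p₁, p₂⟩ hP
      rw [Finset.mem_product] at hP
      obtain ⟨h1, h2⟩ := hP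
      obtain ⟨hPO1, hNF1, hC⟩ := mem_cls_iff.1 h1
      obtain ⟨hPO2, hNF2, -⟩ := mem_cls_iff.1 h2
      exact Finset.mem_filter.2 ⟨mem_cls_iff.2 ⟨gl_isPO hPO1 hPO2,
        gl_NF hNF1 hNF2, gl_not_conn hS0 hS1⟩, cmpn_gl hC hS0⟩
    · intro p hp
      rw [Finset.mem_filter] at hp
      obtain ⟨hp, hpS⟩ := hp
      funext i j
      by_cases h : i ∈ S <;> by_cases h' : j ∈ S
      · exact gl_in h h'
      · have h1 : p i j = false := by
          by_contra h2
          rw [Bool.not_eq_false] at h2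
          subst hpS
          exact h' ((cmpn_closed h2).1 h)
        show gl S _ _ i j = _
        unfold gl
        rw [dif_pos h, dif_neg h', h1]
      · have h1 : p i j = false := by
          by_contra h2
          rw [Bool.not_eq_false] at h2
          subst hpS
          exact h ((cmpn_closed h2).2 h')
        show gl S _ _ i j = _
        unfold gl
        rw [dif_neg h, dif_pos h', h1]
      · exact gl_out h h'
    · rintro ⟨p₁, p₂⟩ _
      refine Prod.ext ?_ ?_
      · funext i j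
        exact gl_in i.2 j.2
      · funext i j
        exact gl_out i.2 j.2
    · intro p hp
      rw [Finset.mem_filter] at hp
      obtain ⟨hp, hpS⟩ := hp
      show f (ndn p) = f (ndn fun i j : {x // x ∈ S} => p i j) *
        f (ndn fun i j : {x // x ∉ S} => p i j)
      rw [← hf, ← ndn_gl]
      congr 2
      funext i j
      by_cases h : i ∈ S <;> by_cases h' : j ∈ S
      · rw [gl_in h h']
      · have h1 : p i j = false := by
          by_contra h2
          rw [Bool.not_eq_false] at h2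
          subst hpS
          exact h' ((cmpn_closed h2).1 h)
        unfold gl
        rw [dif_pos h, dif_neg h', h1]
      · have h1 : p i j = false := by
          by_contra h2
          rw [Bool.not_eq_false] at h2
          subst hpS
          exact h ((cmpn_closed h2).2 h')
        unfold gl
        rw [dif_neg h, dif_pos h', h1]
      · rw [gl_out h h']
  · intro p hp
    obtain ⟨-, -, hC⟩ := mem_cls_iff.1 hp
    exact Finset.mem_filter.2 ⟨Finset.mem_univ _, self_mem, cmpn_ne hC⟩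

end RegBool
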