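import Pool.Agent.Lib.MP_8251dc_co.SP.STrans

set_option autoImplicit false

open Finset

namespace RegBool

variable {α : Type} [Fintype α] [DecidableEq α]

/-- The ordinal sum of a relation on `S` and a relation on its complement. -/
def oglue (S : Finset α) (p1 : {x // x ∈ S} → {x // x ∈ S} → Bool)
    (p2 : {x // x ∉ S} → {x // x ∉ S} → Bool) : α → α → Bool := fun i j =>
  if hi : i ∈ S then (if hj : j ∈ S then p1 ⟨i, hi⟩ ⟨j, hj⟩ else true)
  else (if hj : j ∈ S then false else p2 ⟨i, hi⟩ ⟨j, hj⟩)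

section Glue

variable {S : Finset α} {p1 : {x // x ∈ S} → {x // x ∈ S} → Bool}
  {p2 : {x // x ∉ S} → {x // x ∉ S} → Bool}

omit [Fintype α] in
theorem oglue_in {i j : α} (hi : i ∈ S) (hj : j ∈ S) :
    oglue S p1 p2 i j = p1 ⟨i, hi⟩ ⟨j, hj⟩ := by simp [oglue, hi, hj]

omit [Fintype α] in
theorem oglue_out {i j : α} (hi : i ∉ S) (hj : j ∉ S) :
    oglue S p1 p2 i j = p2 ⟨i, hi⟩ ⟨j, hj⟩ := by simp [oglue, hi, hj]

omit [Fintype α] in
theorem oglue_up {i j : α} (hi : i ∈ S) (hj : j ∉ S) :
    oglue S p1 p2 i j = true := by simp [oglue, hi, hj]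

omit [Fintype α] in
theorem oglue_dn {i j : α} (hi : i ∉ S) (hj : j ∈ S) :
    oglue S p1 p2 i j = false := by simp [oglue, hi, hj]

omit [Fintype α] in
theorem oglue_mem {i j : α} (h : oglue S p1 p2 i j = true) (hj : j ∈ S) : i ∈ S := by
  by_contra hi
  rw [oglue_dn hi hj] at h
  exact Bool.false_ne_true h

omit [Fintype α] in
theorem isPO_oglue (h1 : IsPO p1) (h2 : IsPO p2) : IsPO (oglue S p1 p2) := by
  refine ⟨fun i => ?_, fun i j hij hji => ?_, fun i j l hij hjl => ?_⟩
  · by_cases hi : i ∈ S
    · rw [oglue_in hi hi]; exact h1.1 _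
    · rw [oglue_out hi hi]; exact h2.1 _
  · by_cases hi : i ∈ S
    · have hj := oglue_mem hji hi
      rw [oglue_in hi hj] at hij
      rw [oglue_in hj hi] at hji
      exact congrArg Subtype.val (h1.2.1 _ _ hij hji)
    · have hj : j ∉ S := fun hj => hi (oglue_mem hij hj)
      rw [oglue_out hi hj] at hij
      rw [oglue_out hj hi] at hji
      exact congrArg Subtype.val (h2.2.1 _ _ hij hji)
  · by_cases hl : l ∈ S
    · have hj := oglue_mem hjl hl
      have hi := oglue_mem hij hj
      rw [oglue_in hi hj] at hij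
      rw [oglue_in hj hl] at hjl
      rw [oglue_in hi hl]
      exact h1.2.2 _ _ _ hij hjl
    · by_cases hi : i ∈ S
      · exact oglue_up hi hl
      · have hj : j ∉ S := fun hj => hi (oglue_mem hij hj)
        rw [oglue_out hi hj] at hij
        rw [oglue_out hj hl] at hjl
        rw [oglue_out hi hl]
        exact h2.2.2 _ _ _ hij hjl

omit [Fintype α] in
theorem nf_oglue (h1 : NF p1) (h2 : NF p2) : NF (oglue S p1 p2) := by
  intro a b c d hac hbc hbd
  by_cases ha : a ∈ S
  · by_cases hd : d ∈ S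
    · have hb := oglue_mem hbd hd
      by_cases hc : c ∈ S
      · rw [oglue_in ha hc] at hac
        rw [oglue_in hb hc] at hbc
        rw [oglue_in hb hd] at hbd
        rw [oglue_in ha hd, oglue_in hb ha, oglue_in hd hc]
        exact h1 _ _ _ _ hac hbc hbd
      · exact Or.inr (Or.inr (oglue_up hd hc))
    · exact Or.inl (oglue_up ha hd)
  · have hc : c ∉ S := fun hc => ha (oglue_mem hac hc)
    by_cases hb : b ∈ S
    · exact Or.inr (Or.inl (oglue_up hb ha))
    · have hd : d ∉ S := fun hd => hb (oglue_mem hbd hd)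
      rw [oglue_out ha hc] at hac
      rw [oglue_out hb hc] at hbc
      rw [oglue_out hb hd] at hbd
      rw [oglue_out ha hd, oglue_out hb ha, oglue_out hd hc]
      exact h2 _ _ _ _ hac hbc hbd

theorem ndn_oglue : ndn (oglue S p1 p2) + 1 = ndn p1 + ndn p2 := by
  classical
  let e1 : Finset {x // x ∈ S} ↪ Finset α :=
    ⟨fun D => D.map (Function.Embedding.subtype _), Finset.map_injective _⟩
  let e2 : Finset {x // x ∉ S} ↪ Finset α :=
    ⟨fun D => S ∪ D.map (Function.Embedding.subtype _), fun D D' h => by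
      have h' : S ∪ D.map (Function.Embedding.subtype _) =
        S ∪ D'.map (Function.Embedding.subtype _) := h
      ext x
      have h1 := Finset.ext_iff.1 h' x.1
      simpa [x.2] using h1⟩
  have hA : (univ.filter fun T : Finset α => ∀ i j, oglue S p1 p2 i j = true → j ∈ T → i ∈ T) =
      ((univ.filter fun T : Finset {x // x ∈ S} => ∀ i j, p1 i j = true → j ∈ T → i ∈ T).map e1) ∪
      ((univ.filter fun T : Finset {x // x ∉ S} => ∀ i j, p2 i j = true → j ∈ T → i ∈ T).map e2)
      := by
    ext T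
    simp only [mem_filter, mem_univ, true_and, mem_union, mem_map]
    constructor
    · intro hT
      by_cases hj : ∃ j ∈ T, j ∉ S
      · obtain ⟨j, hj1, hj2⟩ := hj
        have hST : S ⊆ T := fun i hi => hT i j (oglue_up hi hj2) hj1
        right
        refine ⟨univ.filter fun x : {x // x ∉ S} => x.1 ∈ T, fun a b hab hb => ?_, ?_⟩
        · simp only [mem_filter, mem_univ, true_and] at hb ⊢
          exact hT a.1 b.1 (by rw [oglue_out a.2 b.2]; exact hab) hb
        · show S ∪ _ = T
          ext x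
          simp only [mem_union, mem_map, mem_filter, mem_univ, true_and,
            Function.Embedding.coe_subtype, Subtype.exists, exists_and_right, exists_eq_right]
          constructor
          · rintro (h | ⟨_, h⟩)
            · exact hST h
            · exact h
          · intro h
            by_cases hx : x ∈ S
            · exact Or.inl hx
            · exact Or.inr ⟨hx, h⟩
      · push Not at hj
        left
        refine ⟨univ.filter fun x : {x // x ∈ S} => x.1 ∈ T, fun a b hab hb => ?_, ?_⟩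
        · simp only [mem_filter, mem_univ, true_and] at hb ⊢
          exact hT a.1 b.1 (by rw [oglue_in a.2 b.2]; exact hab) hb
        · show Finset.map _ _ = T
          ext x
          simp only [mem_map, mem_filter, mem_univ, true_and,
            Function.Embedding.coe_subtype, Subtype.exists, exists_and_right, exists_eq_right]
          constructor
          · rintro ⟨_, h⟩
            exact h
          · intro h
            exact ⟨hj x h, h⟩
    · rintro (⟨D, hD, rfl⟩ | ⟨D, hD, rfl⟩)
      · intro i j hij hj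
        change j ∈ D.map (Function.Embedding.subtype _) at hj
        show i ∈ D.map (Function.Embedding.subtype _)
        rw [mem_map] at hj ⊢
        obtain ⟨y, hy, rfl⟩ := hj
        have hi : i ∈ S := oglue_mem hij y.2
        exact ⟨⟨i, hi⟩, hD _ y ((oglue_in (p1 := p1) (p2 := p2) hi y.2).symm.trans hij) hy, rfl⟩
      · intro i j hij hj
        change j ∈ S ∪ D.map (Function.Embedding.subtype _) at hj
        show i ∈ S ∪ D.map (Function.Embedding.subtype _)
        rw [mem_union] at hj ⊢
        by_cases hi : i ∈ S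
        · exact Or.inl hi
        · right
          rcases hj with hj | hj
          · exact absurd (oglue_mem hij hj) hi
          · rw [mem_map] at hj ⊢
            obtain ⟨y, hy, rfl⟩ := hj
            exact ⟨⟨i, hi⟩, hD _ y ((oglue_out (p1 := p1) (p2 := p2) hi y.2).symm.trans hij) hy,
              rfl⟩
  have hI : ((univ.filter fun T : Finset {x // x ∈ S} =>
        ∀ i j, p1 i j = true → j ∈ T → i ∈ T).map e1) ∩
      ((univ.filter fun T : Finset {x // x ∉ S} => ∀ i j, p2 i j = true → j ∈ T → i ∈ T).map e2)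
      = {S} := by
    ext T
    simp only [mem_inter, mem_map, mem_filter, mem_univ, true_and, mem_singleton]
    constructor
    · rintro ⟨⟨D, hD, rfl⟩, ⟨D', hD', h⟩⟩
      have h' : S ∪ D'.map (Function.Embedding.subtype _) =
        D.map (Function.Embedding.subtype _) := h
      show D.map (Function.Embedding.subtype _) = S
      apply Finset.Subset.antisymm
      · intro x hx
        rw [mem_map] at hx
        obtain ⟨y, hy, rfl⟩ := hx
        exact y.2
      · rw [← h']
        exact subset_union_left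
    · rintro rfl
      refine ⟨⟨univ, fun _ _ _ _ => mem_univ _, ?_⟩, ⟨∅, fun _ _ _ h => absurd h (notMem_empty _), ?_⟩⟩
      · show Finset.map _ univ = T
        ext x
        simp
      · show T ∪ Finset.map _ ∅ = T
        simp
  have h := card_union_add_card_inter
    ((univ.filter fun T : Finset {x // x ∈ S} =>
        ∀ i j, p1 i j = true → j ∈ T → i ∈ T).map e1)
      ((univ.filter fun T : Finset {x // x ∉ S} => ∀ i j, p2 i j = true → j ∈ T → i ∈ T).map e2)
  rw [← hA, hI, card_singleton, card_map, card_map] at h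
  exact h

end Glue

/-- `S` is the bottom block of `p` that is not an ordinal sum. -/
def MB (p : α → α → Bool) (S : Finset α) : Prop :=
  S.Nonempty ∧ (∀ i ∈ S, ∀ j, j ∉ S → p i j = true) ∧ S ≠ univ ∧
    Ind (fun i j : {x // x ∈ S} => p i.1 j.1)

theorem exists_MB {p : α → α → Bool} (h : ¬ Ind p) : ∃ S, MB p S := by
  classical
  have h' : ∃ n, ∃ S : Finset α, S.card = n ∧ S.Nonempty ∧
      (∀ i ∈ S, ∀ j, j ∉ S → p i j = true) ∧ S ≠ univ := by
    unfold Ind at h
    push Not at h
    obtain ⟨S, h1, h2, h3⟩ := h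
    exact ⟨_, S, rfl, h1, h2, h3⟩
  obtain ⟨S, hS, h1, h2, h3⟩ := Nat.find_spec h'
  refine ⟨S, h1, h2, h3, fun T hT1 hT2 => ?_⟩
  set T' : Finset α := T.map (Function.Embedding.subtype _) with hT'
  have hTS : T' ⊆ S := by
    intro x hx
    rw [hT', mem_map] at hx
    obtain ⟨y, hy, rfl⟩ := hx
    exact y.2
  have hne : T'.Nonempty := by simpa [hT'] using hT1
  have hbb : ∀ i ∈ T', ∀ j, j ∉ T' → p i j = true := by
    intro i hi j hj
    by_cases hjS : j ∈ S
    · rw [hT', mem_map] at hi
      obtain ⟨y, hy, rfl⟩ := hi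
      exact hT2 y hy ⟨j, hjS⟩ fun hc => hj (by
        rw [hT', mem_map]
        exact ⟨_, hc, rfl⟩)
    · exact h2 i (hTS hi) j hjS
  have hnu : T' ≠ univ := fun hc => h3 (by
    rw [hc] at hTS
    exact Finset.univ_subset_iff.1 hTS)
  have hmin := Nat.find_min' h' ⟨T', rfl, hne, hbb, hnu⟩
  have hEq : T' = S := Finset.eq_of_subset_of_card_le hTS (by rw [hS]; exact hmin)
  ext x
  simp only [mem_univ, iff_true]
  have : x.1 ∈ T' := by rw [hEq]; exact x.2
  rw [hT', mem_map] at this
  obtain ⟨y, hy, hyx⟩ := this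
  have : y = x := Subtype.ext hyx
  rwa [← this]

omit [Fintype α] in
theorem MB_sub_aux [Fintype α] {p : α → α → Bool} {S S' : Finset α} (h : MB p S) (h' : MB p S')
    (hs : S ⊆ S') : S' ⊆ S := by
  have h1 := h'.2.2.2 (univ.filter fun x : {x // x ∈ S'} => x.1 ∈ S) ?_ ?_
  · intro x hx
    have : (⟨x, hx⟩ : {x // x ∈ S'}) ∈ (univ.filter fun x : {x // x ∈ S'} => x.1 ∈ S) := by
      rw [h1]; exact mem_univ _
    simpa using this
  · obtain ⟨x, hx⟩ := h.1
    exact ⟨⟨x, hs hx⟩, by simpa using hx⟩
  · intro i hi j hj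
    simp only [mem_filter, mem_univ, true_and] at hi hj
    exact h.2.1 _ hi _ hj

theorem MB_unique {p : α → α → Bool} (hp : IsPO p) {S S' : Finset α} (h : MB p S)
    (h' : MB p S') : S = S' := by
  by_cases hs : S ⊆ S'
  · exact Finset.Subset.antisymm hs (MB_sub_aux h h' hs)
  · have hs' : S' ⊆ S := by
      rw [Finset.not_subset] at hs
      obtain ⟨i, hi1, hi2⟩ := hs
      intro j hj
      by_contra hjS
      have e := hp.2.1 i j (h.2.1 i hi1 j hjS) (h'.2.1 j hj i hi2)
      rw [e] at hi2
      exact hi2 hj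
    exact Finset.Subset.antisymm (MB_sub_aux h' h hs') hs'

theorem fiber_sum (f : ℕ → ℤ) {S : Finset α} (h1 : S.Nonempty) (h2 : S ≠ univ) [DecidablePred fun p : α → α → Bool => MB p S] :
    ∑ p ∈ (cls α (fun p => ¬ Ind p)).filter (fun p => MB p S), f (ndn p) =
      ∑ x ∈ cls {x // x ∈ S} Ind ×ˢ cls {x // x ∉ S} (fun _ => True),
        f (ndn (oglue S x.1 x.2)) := by
  classical
  refine Finset.sum_nbij' (fun p => (fun i j => p i.1 j.1, fun i j => p i.1 j.1))
    (fun x => oglue S x.1 x.2) ?_ ?_ ?_ ?_ ?_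
  · intro p hp
    simp only [cls, mem_filter, mem_univ, true_and, mem_product] at hp ⊢
    obtain ⟨⟨hp1, hp2, hp3⟩, hp4⟩ := hp
    refine ⟨⟨⟨fun i => hp1.1 _, fun i j hij hji => Subtype.ext (hp1.2.1 _ _ hij hji),
      fun i j l => hp1.2.2 _ _ _⟩, fun a b c d => hp2 _ _ _ _, hp4.2.2.2⟩,
      ⟨⟨fun i => hp1.1 _, fun i j hij hji => Subtype.ext (hp1.2.1 _ _ hij hji),
      fun i j l => hp1.2.2 _ _ _⟩, fun a b c d => hp2 _ _ _ _, trivial⟩⟩
  · rintro ⟨p1, p2⟩ hx
    simp only [cls, mem_filter, mem_univ, true_and, mem_product] at hx ⊢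
    obtain ⟨⟨a1, a2, a3⟩, ⟨b1, b2, _⟩⟩ := hx
    have hbb : ∀ i ∈ S, ∀ j, j ∉ S → oglue S p1 p2 i j = true := fun i hi j hj => oglue_up hi hj
    refine ⟨⟨isPO_oglue a1 b1, nf_oglue a2 b2, fun hc => h2 (hc S h1 hbb)⟩, h1, hbb, h2, ?_⟩
    have e : (fun i j : {x // x ∈ S} => oglue S p1 p2 i.1 j.1) = p1 := by
      funext i j
      exact oglue_in i.2 j.2
    rw [e]
    exact a3
  · intro p hp
    simp only [cls, mem_filter, mem_univ, true_and] at hp
    obtain ⟨⟨hp1, hp2, hp3⟩, hp4⟩ := hp
    funext i j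
    by_cases hi : i ∈ S
    · by_cases hj : j ∈ S
      · exact oglue_in hi hj
      · rw [oglue_up hi hj]
        exact (hp4.2.1 i hi j hj).symm
    · by_cases hj : j ∈ S
      · rw [oglue_dn hi hj]
        by_contra hc
        have hc' : p i j = true := by
          cases hpp : p i j with
          | false => exact absurd hpp.symm hc
          | true => rfl
        have e := hp1.2.1 _ _ hc' (hp4.2.1 j hj i hi)
        rw [e] at hi
        exact hi hj
      · exact oglue_out hi hj
  · rintro ⟨p1, p2⟩ hx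
    simp only [Prod.mk.injEq]
    constructor
    · funext i j
      exact oglue_in i.2 j.2
    · funext i j
      exact oglue_out i.2 j.2
  · intro p hp
    have hp' := hp
    simp only [cls, mem_filter, mem_univ, true_and] at hp
    obtain ⟨⟨hp1, hp2, hp3⟩, hp4⟩ := hp
    congr 2
    funext i j
    by_cases hi : i ∈ S
    · by_cases hj : j ∈ S
      · exact (oglue_in (p1 := fun i j => p i.1 j.1) (p2 := fun i j => p i.1 j.1) hi hj).symm
      · rw [oglue_up hi hj]
        exact hp4.2.1 i hi j hj
    · by_cases hj : j ∈ S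
      · rw [oglue_dn hi hj]
        by_contra hc
        have hc' : p i j = true := by
          cases hpp : p i j with
          | false => exact absurd hpp hc
          | true => rfl
        have e := hp1.2.1 _ _ hc' (hp4.2.1 j hj i hi)
        rw [e] at hi
        exact hi hj
      · exact (oglue_out (p1 := fun i j => p i.1 j.1) (p2 := fun i j => p i.1 j.1) hi hj).symm

/-- Ordinal sums `p = p₁ ⊕ p₂` on `S` and its complement, `p₁` indecomposable, `S` neither empty
nor everything. -/
theorem ord_sum (q : ℕ) :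
    ∑ p ∈ cls α (fun p => ¬ Ind p), ((ndn p : ℤ) - 1) ^ q =
      ∑ S ∈ (univ.filter fun S : Finset α => S.Nonempty ∧ S ≠ univ),
        ∑ j ∈ range (q + 1), (q.choose j : ℤ) *
          (∑ p ∈ cls {x // x ∈ S} Ind, ((ndn p : ℤ) - 1) ^ j) *
            ∑ p ∈ cls {x // x ∉ S} (fun _ => True), ((ndn p : ℤ) - 1) ^ (q - j) := by
  classical
  have h0 : ∑ p ∈ cls α (fun p => ¬ Ind p), ((ndn p : ℤ) - 1) ^ q =
      ∑ S ∈ (univ.filter fun S : Finset α => S.Nonempty ∧ S ≠ univ),
        ∑ p ∈ (cls α (fun p => ¬ Ind p)).filter (fun p => MB p S), ((ndn p : ℤ) - 1) ^ q := by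
    simp_rw [Finset.sum_filter (fun p => MB p _)]
    rw [Finset.sum_comm]
    refine Finset.sum_congr rfl fun p hp => ?_
    simp only [cls, mem_filter, mem_univ, true_and] at hp
    obtain ⟨S, hS⟩ := exists_MB hp.2.2
    rw [Finset.sum_eq_single S]
    · rw [if_pos hS]
    · intro T hT hne
      rw [if_neg]
      intro hc
      exact hne (MB_unique hp.1 hc hS)
    · intro hc
      exact absurd (by simpa using ⟨hS.1, hS.2.2.1⟩) hc
  rw [h0]
  refine Finset.sum_congr rfl fun S hS => ?_
  simp only [mem_filter, mem_univ, true_and] at hS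
  rw [fiber_sum (fun n => ((n : ℤ) - 1) ^ q) hS.1 hS.2]
  have h3 : ∀ x ∈ cls {x // x ∈ S} Ind ×ˢ cls {x // x ∉ S} (fun _ => True),
      ((ndn (oglue S x.1 x.2) : ℤ) - 1) ^ q =
        ∑ j ∈ range (q + 1), (q.choose j : ℤ) * ((ndn x.1 : ℤ) - 1) ^ j *
          ((ndn x.2 : ℤ) - 1) ^ (q - j) := by
    intro x _
    have h4 := ndn_oglue (S := S) (p1 := x.1) (p2 := x.2)
    have h5 : ((ndn (oglue S x.1 x.2) : ℤ) - 1) = ((ndn x.1 : ℤ) - 1) + ((ndn x.2 : ℤ) - 1) := by
      have : ((ndn (oglue S x.1 x.2) : ℤ)) + 1 = ndn x.1 + ndn x.2 := by exact_mod_cast h4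
      linarith
    rw [h5, add_pow]
    refine Finset.sum_congr rfl fun j _ => ?_
    ring
  rw [Finset.sum_congr rfl h3, Finset.sum_comm]
  refine Finset.sum_congr rfl fun j _ => ?_
  rw [Finset.sum_product, mul_assoc, Finset.sum_mul_sum, Finset.mul_sum]
  refine Finset.sum_congr rfl fun a _ => ?_
  rw [Finset.mul_sum]
  refine Finset.sum_congr rfl fun b _ => ?_
  ring

end RegBool
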