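import Pool.Agent.Lib.MP_8251dc_co.SP.SDefs

set_option autoImplicit false

open Finset

namespace RegBool

variable {α : Type} [Fintype α] [DecidableEq α]

theorem ind_of_not_conn (p : α → α → Bool) (hp : IsPO p) (h : ¬ Conn p) : Ind p := by
  intro S hS hlt
  by_contra hne
  apply h
  intro T hT hcl
  obtain ⟨s, hs⟩ := hS
  obtain ⟨o, ho⟩ : ∃ o, o ∉ S := by
    by_contra hcon
    push Not at hcon
    exact hne (eq_univ_of_forall hcon)
  obtain ⟨t, ht⟩ := hT
  have hsT : s ∈ T ∧ o ∈ T := by
    by_cases htS : t ∈ S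
    · have h1 : o ∈ T := (hcl t o (hlt t htS o ho)).1 ht
      exact ⟨(hcl s o (hlt s hs o ho)).2 h1, h1⟩
    · have h1 : s ∈ T := (hcl s t (hlt s hs t htS)).2 ht
      exact ⟨h1, (hcl s o (hlt s hs o ho)).1 h1⟩
  refine eq_univ_of_forall fun z => ?_
  by_cases hz : z ∈ S
  · exact (hcl z o (hlt z hz o ho)).2 hsT.2
  · exact (hcl s z (hlt s hs z hz)).1 hsT.1

omit [Fintype α] in
theorem struct_aux (p : α → α → Bool) (hp : IsPO p) (hN : NF p) :
    ∀ n : ℕ, ∀ X : Finset α, X.card = n → 2 ≤ n →
      (∀ S ⊆ X, S.Nonempty → (∀ i ∈ X, ∀ j ∈ X, p i j = true → (i ∈ S ↔ j ∈ S)) → S = X) →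
      ∃ U ⊆ X, U.Nonempty ∧ U ≠ X ∧ ∀ i ∈ U, ∀ j ∈ X, j ∉ U → p i j = true := by
  intro n
  obtain ⟨hr, has, htr⟩ := hp
  induction n using Nat.strong_induction_on with
  | _ n ih =>
  intro X hX hn hconn
  have hne : X.Nonempty := Finset.card_pos.1 (by omega)
  obtain ⟨x, hx, hfx⟩ :=
    Finset.exists_max_image X (fun x => (X.filter fun z => p z x = true).card) hne
  have hmax : ∀ y ∈ X, p x y = true → y = x := by
    intro y hy hxy
    by_contra hne'
    have h1 := hfx y hy
    have h2 : (X.filter fun z => p z x = true) ⊂ (X.filter fun z => p z y = true) := by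
      rw [Finset.ssubset_iff_of_subset]
      · exact ⟨y, mem_filter.2 ⟨hy, hr y⟩, fun h => hne' (has y x (mem_filter.1 h).2 hxy)⟩
      · intro z hz
        rw [mem_filter] at hz ⊢
        exact ⟨hz.1, htr z x y hz.2 hxy⟩
    have h3 := Finset.card_lt_card h2
    omega
  obtain ⟨X1, hX1⟩ : ∃ X1, X1 = X.erase x := ⟨_, rfl⟩
  have hmem : ∀ z, z ∈ X1 ↔ z ≠ x ∧ z ∈ X := by
    intro z
    rw [hX1, mem_erase]
  have hX1c : X1.card = n - 1 := by rw [hX1, card_erase_of_mem hx, hX]
  obtain ⟨D, hD⟩ : ∃ D, D = X1.filter (fun z => p z x = true) := ⟨_, rfl⟩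
  have hmD : ∀ z, z ∈ D ↔ z ∈ X1 ∧ p z x = true := by
    intro z
    rw [hD, mem_filter]
  have hnx : ∀ z ∈ X1, ¬ p x z = true := fun z hz h =>
    ((hmem z).1 hz).1 (hmax z ((hmem z).1 hz).2 h)
  have hxX1 : x ∉ X1 := fun h => ((hmem x).1 h).1 rfl
  have hDne : D.Nonempty := by
    by_contra hcon
    rw [not_nonempty_iff_eq_empty] at hcon
    have h1 := hconn {x} (singleton_subset_iff.2 hx) (singleton_nonempty x) (by
      intro i hi j hj hij
      rw [mem_singleton, mem_singleton]
      constructor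
      · intro h
        rw [h] at hij
        exact hmax j hj hij
      · intro h
        rw [h] at hij
        by_contra hne'
        have h2 : i ∈ D := (hmD i).2 ⟨(hmem i).2 ⟨hne', hi⟩, hij⟩
        rw [hcon] at h2
        exact absurd h2 (notMem_empty _))
    have h2 : X.card = 1 := by rw [← h1, card_singleton]
    omega
  by_cases hDX : D = X1
  · refine ⟨X1, fun z hz => ((hmem z).1 hz).2, ?_, ?_, ?_⟩
    · rw [← hDX]
      exact hDne
    · intro h
      rw [h] at hxX1
      exact hxX1 hx
    · intro i hi j hj hjn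
      have hjx : j = x := by
        by_contra h
        exact hjn ((hmem j).2 ⟨h, hj⟩)
      rw [hjx]
      rw [← hDX] at hi
      exact ((hmD i).1 hi).2
  have hDs : D ⊆ X1 := by
    rw [hD]
    exact filter_subset _ _
  obtain ⟨e, he, heD⟩ : ∃ e ∈ X1, e ∉ D := by
    by_contra hcon
    push Not at hcon
    exact hDX (Subset.antisymm hDs hcon)
  by_cases hc1 : ∀ S ⊆ X1, S.Nonempty →
      (∀ i ∈ X1, ∀ j ∈ X1, p i j = true → (i ∈ S ↔ j ∈ S)) → S = X1
  · have hX12 : 2 ≤ X1.card := by
      obtain ⟨y, hy⟩ := hDne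
      exact one_lt_card.2 ⟨y, hDs hy, e, he, fun h => heD (h ▸ hy)⟩
    obtain ⟨U, hU, hUne, hUX, hUlt⟩ := ih (n - 1) (by omega) X1 hX1c (by omega) hc1
    obtain ⟨t, ht, htU⟩ : ∃ t ∈ X1, t ∉ U := by
      by_contra hcon
      push Not at hcon
      exact hUX (Subset.antisymm hU hcon)
    by_cases hUD : ∀ s ∈ U, p s x = true
    · refine ⟨U, fun z hz => ((hmem z).1 (hU hz)).2, hUne, ?_, ?_⟩
      · intro h
        have h1 : x ∈ U := by
          rw [h]
          exact hx
        exact hxX1 (hU h1)
      · intro i hi j hj hjn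
        by_cases hjx : j = x
        · rw [hjx]
          exact hUD i hi
        · exact hUlt i hi j ((hmem j).2 ⟨hjx, hj⟩) hjn
    · push Not at hUD
      obtain ⟨s0, hs0, hs0x⟩ := hUD
      have hDU : ∀ y ∈ D, y ∈ U := by
        intro y hy
        by_contra hyU
        have h1 := (hmD y).1 hy
        exact hs0x (htr s0 y x (hUlt s0 hs0 y h1.1 hyU) h1.2)
      refine ⟨D, fun z hz => ((hmem z).1 (hDs hz)).2, hDne, ?_, ?_⟩
      · intro h
        have h1 : x ∈ D := by
          rw [h]
          exact hx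
        exact hxX1 (hDs h1)
      · intro y hy j hj hjD
        by_cases hjx : j = x
        · rw [hjx]
          exact ((hmD y).1 hy).2
        · have hj1 : j ∈ X1 := (hmem j).2 ⟨hjx, hj⟩
          by_cases hjU : j ∈ U
          · rcases hN j y t x (hUlt j hjU t ht htU) (hUlt y (hDU y hy) t ht htU)
              ((hmD y).1 hy).2 with h | h | h
            · exact absurd ((hmD j).2 ⟨hj1, h⟩) hjD
            · exact h
            · exact absurd h (hnx t ht)
          · exact hUlt y (hDU y hy) j hj1 hjU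
  · exfalso
    push Not at hc1
    obtain ⟨K, hK, hKne, hKcl, hKX⟩ := hc1
    have hw : ∀ K ⊆ X1, K.Nonempty →
        (∀ i ∈ X1, ∀ j ∈ X1, p i j = true → (i ∈ K ↔ j ∈ K)) → ∃ w ∈ K, p w x = true := by
      intro K hK hKne hKcl
      by_contra hcon
      push Not at hcon
      have h1 := hconn K (fun z hz => ((hmem z).1 (hK hz)).2) hKne (by
        intro i hi j hj hij
        by_cases hix : i = x
        · rw [hix] at hij ⊢
          rw [hmax j hj hij]
        · by_cases hjx : j = x
          · rw [hjx] at hij ⊢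
            constructor
            · intro h
              exact absurd hij (hcon i h)
            · intro h
              exact absurd (hK h) hxX1
          · exact hKcl i ((hmem i).2 ⟨hix, hi⟩) j ((hmem j).2 ⟨hjx, hj⟩) hij)
      rw [← h1] at hx
      exact hxX1 (hK hx)
    obtain ⟨a, ha, b, hb, hax, hbx, hba⟩ : ∃ a ∈ X1, ∃ b ∈ X1, ¬ p a x = true ∧ p b x = true ∧
        p b a = true := by
      by_contra hcon
      have h1 := hconn (X1.filter fun z => ¬ p z x = true)
        (fun z hz => ((hmem z).1 (mem_filter.1 hz).1).2)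
        ⟨e, mem_filter.2 ⟨he, fun h => heD ((hmD e).2 ⟨he, h⟩)⟩⟩ (by
        intro i hi j hj hij
        rw [mem_filter, mem_filter]
        constructor
        · rintro ⟨h2, h3⟩
          have h4 : j ≠ x := by
            intro h
            rw [h] at hij
            exact h3 hij
          exact ⟨(hmem j).2 ⟨h4, hj⟩, fun h => h3 (htr i j x hij h)⟩
        · rintro ⟨h2, h3⟩
          have h4 : i ≠ x := by
            intro h
            rw [h] at hij
            exact hnx j h2 hij
          have h5 := (hmem i).2 ⟨h4, hi⟩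
          exact ⟨h5, fun h => hcon ⟨j, h2, i, h5, h3, h, hij⟩⟩)
      rw [← h1] at hx
      exact hxX1 (mem_filter.1 hx).1
    have hba' := hKcl b hb a ha hba
    have key : ∀ w ∈ X1, p w x = true → ¬ (b ∈ K ↔ w ∈ K) → False := by
      intro w hwX hwx hwK
      rcases hN w b x a hwx hbx hba with h | h | h
      · exact hwK (hba'.trans (hKcl w hwX a ha h).symm)
      · exact hwK (hKcl b hb w hwX h)
      · exact hax h
    by_cases hbK : b ∈ K
    · obtain ⟨w, hwK, hwx⟩ := hw (X1 \ K) sdiff_subset (by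
        rw [nonempty_iff_ne_empty]
        intro h
        rw [sdiff_eq_empty_iff_subset] at h
        exact hKX (Subset.antisymm hK h)) (by
        intro i hi j hj hij
        rw [mem_sdiff, mem_sdiff]
        have := hKcl i hi j hj hij
        tauto)
      rw [mem_sdiff] at hwK
      exact key w hwK.1 hwx (by tauto)
    · obtain ⟨w, hwK, hwx⟩ := hw K hK hKne hKcl
      exact key w (hK hwK) hwx (by tauto)

/-- A connected N-free partial order with at least two points is an ordinal sum. -/
theorem not_ind_of_conn (p : α → α → Bool) (hp : IsPO p) (hN : NF p)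
    (hc : 2 ≤ Fintype.card α) (h : Conn p) : ¬ Ind p := by
  intro hI
  obtain ⟨U, -, hUne, hUX, hUlt⟩ := struct_aux p hp hN (Fintype.card α) univ card_univ hc
    (fun S _ hS hcl => h S hS fun i j hij => hcl i (mem_univ i) j (mem_univ j) hij)
  exact hUX (hI U hUne fun i hi j hj => hUlt i hi j (mem_univ j) hj)

end RegBool
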