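import Pool.Agent.Lib.MP_8251dc_co.SP.SDefs

set_option autoImplicit false

open Finset

namespace RegBool

private theorem sUniq_congr {F G : ℕ → ℕ → ℤ} {n : ℕ} (h : F n = G n) (q : ℕ) :
    sh F n q = sh G n q := by
  unfold sh
  rw [h]

private theorem sUniq_inj {F G : ℕ → ℕ → ℤ} {n : ℕ} (h : ∀ q, sh F n q = sh G n q) :
    F n = G n := by
  have key : ∀ q, F n q = G n q := by
    intro q
    induction q using Nat.strong_induction_on with
    | _ q ih =>
      have h1 := h q
      unfold sh at h1
      rw [sum_range_succ, sum_range_succ] at h1
      have h2 : ∑ j ∈ range q, (q.choose j : ℤ) * (-1) ^ (q - j) * F n j =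
          ∑ j ∈ range q, (q.choose j : ℤ) * (-1) ^ (q - j) * G n j :=
        sum_congr rfl fun j hj => by rw [ih j (mem_range.1 hj)]
      rw [h2] at h1
      have h3 := add_left_cancel h1
      rwa [Nat.choose_self, Nat.sub_self, pow_zero, Nat.cast_one, one_mul, one_mul, one_mul] at h3
  exact funext key

/-- The recurrences determine `A`. -/
theorem SPRec.unique {A C D A' C' D' : ℕ → ℕ → ℤ} (h : SPRec A C D) (h' : SPRec A' C' D') :
    A = A' := by
  have key : ∀ n, A n = A' n ∧ (1 ≤ n → C n = C' n ∧ D n = D' n) := by
    intro n
    induction n using Nat.strong_induction_on with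
    | _ n ih =>
      rcases Nat.lt_or_ge n 2 with hn | hn
      · interval_cases n
        · refine ⟨funext fun q => ?_, fun h0 => absurd h0 (by norm_num)⟩
          rw [h.a0, h'.a0]
        · refine ⟨funext fun q => ?_, fun _ => ⟨funext fun q => ?_, funext fun q => ?_⟩⟩
          · rw [h.a1, h'.a1]
          · rw [h.c1, h'.c1]
          · rw [h.d1, h'.d1]
      · have hD : D n = D' n := by
          funext q
          rw [h.disj n q hn, h'.disj n q hn]
          refine sum_congr rfl fun k hk => ?_
          have hk' := mem_range.1 hk
          have e1 : C (k + 1) = C' (k + 1) := ((ih (k + 1) (by omega)).2 (by omega)).1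
          have e2 : A (n - 1 - k) = A' (n - 1 - k) := (ih (n - 1 - k) (by omega)).1
          rw [e1, e2]
        have hC : C n = C' n := by
          apply sUniq_inj
          intro q
          rw [h.ord n q hn, h'.ord n q hn]
          refine sum_congr rfl fun k hk => ?_
          have hk' := mem_Ico.1 hk
          have e1 : D k = D' k := ((ih k (by omega)).2 hk'.1).2
          have e2 : A (n - k) = A' (n - k) := (ih (n - k) (by omega)).1
          congr 1
          refine sum_congr rfl fun j _ => ?_
          rw [sUniq_congr e1, sUniq_congr e2]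
        refine ⟨funext fun q => ?_, fun _ => ⟨hC, hD⟩⟩
        rw [h.add n q hn, h'.add n q hn, hC, hD]
  exact funext fun n => (key n).1

end RegBool
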