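import Pool.Agent.Lib.MP_8251dc_co.SP.SSmall
import Pool.Agent.Lib.MP_8251dc_co.SP.SStruct
import Pool.Agent.Lib.MP_8251dc_co.SP.SDisj
import Pool.Agent.Lib.MP_8251dc_co.SP.SOrd
import Pool.Agent.Lib.MP_8251dc_co.SP.SUniq
import Pool.Agent.Lib.MP_8251dc_co.SP.SCount

set_option autoImplicit false

open Finset

namespace RegBool

variable {α : Type} [Fintype α] [DecidableEq α]

theorem mem_cls {P : (α → α → Bool) → Prop} {p : α → α → Bool} :
    p ∈ cls α P ↔ IsPO p ∧ NF p ∧ P p := by
  classical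
  unfold cls
  rw [mem_filter]
  simp only [mem_univ, true_and]

theorem cls_not_conn (hc : 2 ≤ Fintype.card α) :
    cls α (fun p => ¬ Conn p) = cls α Ind := by
  ext p
  rw [mem_cls, mem_cls]
  constructor
  · rintro ⟨h1, h2, h3⟩
    exact ⟨h1, h2, ind_of_not_conn p h1 h3⟩
  · rintro ⟨h1, h2, h3⟩
    exact ⟨h1, h2, fun h => not_ind_of_conn p h1 h2 hc h h3⟩

theorem cls_not_ind (hc : 2 ≤ Fintype.card α) :
    cls α (fun p => ¬ Ind p) = cls α Conn := by
  ext p
  rw [mem_cls, mem_cls]
  constructor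
  · rintro ⟨h1, h2, h3⟩
    refine ⟨h1, h2, ?_⟩
    by_contra h
    exact h3 (ind_of_not_conn p h1 h)
  · rintro ⟨h1, h2, h3⟩
    exact ⟨h1, h2, not_ind_of_conn p h1 h2 hc h3⟩

theorem sum_card_proper (n : ℕ) (hn : 2 ≤ n) (g : ℕ → ℤ) :
    ∑ S ∈ (univ.filter fun S : Finset (Fin n) => S.Nonempty ∧ S ≠ univ), g S.card =
      ∑ k ∈ Ico 1 n, (n.choose k : ℤ) * g k := by
  have h1 : ∀ S : Finset (Fin n), (S.Nonempty ∧ S ≠ univ) ↔ S.card ∈ Ico 1 n := by
    intro S
    rw [mem_Ico, Nat.one_le_iff_ne_zero, ← card_pos, Nat.pos_iff_ne_zero]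
    have h2 : S = univ ↔ ¬ S.card < n := by
      rw [← card_eq_iff_eq_univ, Fintype.card_fin]
      have := card_le_univ S
      rw [Fintype.card_fin] at this
      omega
    rw [ne_eq, ne_eq, h2, not_not]
  have h3 := sum_powerset_apply_card (fun k => if k ∈ Ico 1 n then g k else 0)
    (x := (univ : Finset (Fin n)))
  rw [powerset_univ, card_univ, Fintype.card_fin] at h3
  have h4 : ∑ S ∈ (univ.filter fun S : Finset (Fin n) => S.Nonempty ∧ S ≠ univ), g S.card =
      ∑ S : Finset (Fin n), if S.card ∈ Ico 1 n then g S.card else 0 := by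
    rw [← sum_filter]
    refine sum_congr (filter_congr fun S _ => h1 S) fun _ _ => rfl
  rw [h4, h3]
  have h5 : Ico 1 n ⊆ range (n + 1) := by
    intro k hk
    rw [mem_Ico] at hk
    rw [mem_range]
    omega
  rw [← sum_subset h5]
  · refine sum_congr rfl fun k hk => ?_
    rw [if_pos hk, nsmul_eq_mul]
  · intro k _ hk
    rw [if_neg hk, smul_zero]

theorem sum_card_pointed (n : ℕ) (hn : 2 ≤ n) (a₀ : Fin n) (g : ℕ → ℤ) :
    ∑ S ∈ (univ.filter fun S : Finset (Fin n) => a₀ ∈ S ∧ S ≠ univ), g S.card =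
      ∑ k ∈ range (n - 1), ((n - 1).choose k : ℤ) * g (k + 1) := by
  have h3 := sum_powerset_apply_card (fun k => if k < n - 1 then g (k + 1) else 0)
    (x := (univ : Finset (Fin n)).erase a₀)
  rw [card_erase_of_mem (mem_univ _), card_univ, Fintype.card_fin] at h3
  have h4 : ∑ S ∈ (univ.filter fun S : Finset (Fin n) => a₀ ∈ S ∧ S ≠ univ), g S.card =
      ∑ U ∈ ((univ : Finset (Fin n)).erase a₀).powerset,
        if U.card < n - 1 then g (U.card + 1) else 0 := by
    rw [← sum_filter]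
    refine sum_bij' (fun S _ => S.erase a₀) (fun U _ => insert a₀ U) ?_ ?_ ?_ ?_ ?_
    · intro S hS
      obtain ⟨-, h1, h2⟩ := mem_filter.1 hS
      refine mem_filter.2 ⟨mem_powerset.2 (erase_subset_erase _ (subset_univ _)), ?_⟩
      have h5 : S.card < n := by
        have := card_lt_univ_of_notMem (s := S) (x := (by
          classical
          exact (not_forall.1 (fun h => h2 (eq_univ_iff_forall.2 h))).choose))
          ((not_forall.1 (fun h => h2 (eq_univ_iff_forall.2 h))).choose_spec)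
        rwa [Fintype.card_fin] at this
      rw [card_erase_of_mem h1]
      have := card_pos.2 ⟨a₀, h1⟩
      omega
    · intro U hU
      obtain ⟨h1, h2⟩ := mem_filter.1 hU
      have h6 : a₀ ∉ U := fun h => (mem_erase.1 (mem_powerset.1 h1 h)).1 rfl
      refine mem_filter.2 ⟨mem_univ _, mem_insert_self _ _, fun h => ?_⟩
      have h7 := congrArg card h
      rw [card_insert_of_notMem h6, card_univ, Fintype.card_fin] at h7
      omega
    · intro S hS
      obtain ⟨-, h1, -⟩ := mem_filter.1 hS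
      exact insert_erase h1
    · intro U hU
      obtain ⟨h1, -⟩ := mem_filter.1 hU
      have h6 : a₀ ∉ U := fun h => (mem_erase.1 (mem_powerset.1 h1 h)).1 rfl
      exact erase_insert h6
    · intro S hS
      obtain ⟨-, h1, -⟩ := mem_filter.1 hS
      rw [card_erase_of_mem h1, Nat.sub_add_cancel (card_pos.2 ⟨a₀, h1⟩)]
  rw [h4, h3]
  have h5 : range (n - 1) ⊆ range (n - 1 + 1) := range_subset_range.2 (by omega)
  rw [← sum_subset h5]
  · refine sum_congr rfl fun k hk => ?_
    rw [if_pos (mem_range.1 hk), nsmul_eq_mul]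
  · intro k _ hk
    rw [if_neg (fun h => hk (mem_range.2 h)), smul_zero]

theorem card_mem (n : ℕ) (S : Finset (Fin n)) [Fintype {x // x ∈ S}] :
    Fintype.card {x // x ∈ S} = S.card :=
  Fintype.card_of_subtype S fun _ => Iff.rfl

theorem card_not_mem (n : ℕ) (S : Finset (Fin n)) [Fintype {x // x ∉ S}] :
    Fintype.card {x // x ∉ S} = n - S.card := by
  rw [Fintype.card_of_subtype Sᶜ (fun x => mem_compl), card_compl, Fintype.card_fin]

theorem SPRec_AA : SPRec AA CC DD where
  a0 := AA_zero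
  a1 := AA_one
  c1 := CC_one
  d1 := DD_one
  add := by
    intro n q hn
    unfold AA CC DD
    rw [← cls_not_conn (by rwa [Fintype.card_fin])]
    classical
    have h1 : cls (Fin n) Conn = (cls (Fin n) fun _ => True).filter fun p => Conn p := by
      ext p
      rw [mem_filter, mem_cls, mem_cls]
      tauto
    have h2 : cls (Fin n) (fun p => ¬ Conn p) =
        (cls (Fin n) fun _ => True).filter fun p => ¬ Conn p := by
      ext p
      rw [mem_filter, mem_cls, mem_cls]
      tauto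
    rw [h1, h2, sum_filter_add_sum_filter_not]
  disj := by
    intro n q hn
    have h1 := disj_sum (α := Fin n) ⟨0, by omega⟩ (fun x => (x : ℤ) ^ q)
      (fun a b => by push_cast; rw [mul_pow])
    rw [cls_not_conn (by rwa [Fintype.card_fin])] at h1
    have h2 : DD n q = ∑ p ∈ cls (Fin n) Ind, (ndn p : ℤ) ^ q := rfl
    have h3 := sum_card_pointed n hn ⟨0, by omega⟩ (fun s => CC s q * AA (n - s) q)
    have h4 : ∑ k ∈ range (n - 1), ((n - 1).choose k : ℤ) * CC (k + 1) q * AA (n - 1 - k) q =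
        ∑ k ∈ range (n - 1), ((n - 1).choose k : ℤ) * (CC (k + 1) q * AA (n - (k + 1)) q) := by
      refine sum_congr rfl fun k _ => ?_
      rw [mul_assoc, Nat.sub_sub, Nat.add_comm 1 k]
    rw [h2, h1, h4, ← h3]
    refine sum_congr rfl fun S _ => ?_
    rw [CC_type (fun x => (x : ℤ) ^ q), AA_type (fun x => (x : ℤ) ^ q), card_mem, card_not_mem]
    rfl
  ord := by
    intro n q hn
    have h0 : ∀ k j, sh DD k j = ∑ p ∈ cls (Fin k) Ind, ((ndn p : ℤ) - 1) ^ j :=
      fun k j => sh_moment (fun n => cls (Fin n) Ind) (fun _ p => (ndn p : ℤ)) k j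
    have h1 : ∀ k j, sh AA k j = ∑ p ∈ cls (Fin k) (fun _ => True), ((ndn p : ℤ) - 1) ^ j :=
      fun k j => sh_moment (fun n => cls (Fin n) (fun _ => True)) (fun _ p => (ndn p : ℤ)) k j
    have h2 : ∀ k j, sh CC k j = ∑ p ∈ cls (Fin k) Conn, ((ndn p : ℤ) - 1) ^ j :=
      fun k j => sh_moment (fun n => cls (Fin n) Conn) (fun _ p => (ndn p : ℤ)) k j
    rw [h2, ← cls_not_ind (by rwa [Fintype.card_fin]), ord_sum,
      ← sum_card_proper n hn (fun s => ∑ j ∈ range (q + 1), (q.choose j : ℤ) * sh DD s j *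
        sh AA (n - s) (q - j))]
    refine sum_congr rfl fun S _ => sum_congr rfl fun j _ => ?_
    rw [DD_type (fun x => ((x : ℤ) - 1) ^ j), AA_type (fun x => ((x : ℤ) - 1) ^ (q - j)),
      card_mem, card_not_mem, h0, h1]

end RegBool
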