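import Pool.Agent.Lib.MP_8251dc_co.SP.SDefs

set_option autoImplicit false

open Finset

namespace RegBool

theorem AA_zero (q : ℕ) : AA 0 q = 1 := by
  have h1 : cls (Fin 0) (fun _ => True) = {fun _ _ => true} := by
    ext p
    simp only [cls, mem_filter, mem_univ, true_and, mem_singleton, and_true]
    constructor
    · intro _
      funext i
      exact i.elim0
    · intro _
      exact ⟨⟨fun i => i.elim0, fun i => i.elim0, fun i => i.elim0⟩, fun i => i.elim0⟩
  have h2 : ndn (fun _ _ => true : Fin 0 → Fin 0 → Bool) = 1 := by decide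
  rw [AA, h1, sum_singleton, h2, Nat.cast_one, one_pow]

private theorem ss_ndn1 : ndn (fun _ _ => true : Fin 1 → Fin 1 → Bool) = 2 := by decide

private theorem ss_eq {i : Fin 1} : i = 0 := Subsingleton.elim _ _

private theorem ss_cls1 (P : (Fin 1 → Fin 1 → Bool) → Prop) (hP : P fun _ _ => true) :
    cls (Fin 1) P = {fun _ _ => true} := by
  ext p
  simp only [cls, mem_filter, mem_univ, true_and, mem_singleton]
  constructor
  · rintro ⟨⟨h, -⟩, -⟩
    funext i j
    rw [Subsingleton.elim j i]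
    exact h i
  · rintro rfl
    exact ⟨⟨fun _ => rfl, fun _ _ _ _ => Subsingleton.elim _ _, fun _ _ _ _ _ => rfl⟩,
      fun _ _ _ _ _ _ _ => Or.inl rfl, hP⟩

private theorem ss_univ {S : Finset (Fin 1)} (hS : S.Nonempty) : S = univ := by
  obtain ⟨i, hi⟩ := hS
  ext j
  rw [Subsingleton.elim j i]
  exact ⟨fun _ => mem_univ _, fun _ => hi⟩

theorem AA_one (q : ℕ) : AA 1 q = 2 ^ q := by
  rw [AA, ss_cls1 _ trivial, sum_singleton, ss_ndn1]
  norm_num

theorem CC_one (q : ℕ) : CC 1 q = 2 ^ q := by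
  rw [CC, ss_cls1 _ fun S hS _ => ss_univ hS, sum_singleton, ss_ndn1]
  norm_num

theorem DD_one (q : ℕ) : DD 1 q = 2 ^ q := by
  rw [DD, ss_cls1 _ fun S hS _ => ss_univ hS, sum_singleton, ss_ndn1]
  norm_num

/-- `sh` of a moment sequence: the moments of `u - 1`. -/
theorem sh_moment {ι : ℕ → Type} (s : ∀ n, Finset (ι n)) (u : ∀ n, ι n → ℤ) (n q : ℕ) :
    sh (fun n q => ∑ p ∈ s n, u n p ^ q) n q = ∑ p ∈ s n, (u n p - 1) ^ q := by
  unfold sh
  have h1 : ∀ j ∈ range (q + 1), (q.choose j : ℤ) * (-1) ^ (q - j) * ∑ p ∈ s n, u n p ^ j =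
      ∑ p ∈ s n, u n p ^ j * (-1) ^ (q - j) * (q.choose j : ℤ) := fun j _ => by
    rw [mul_sum]
    exact sum_congr rfl fun p _ => by ring
  rw [sum_congr rfl h1, sum_comm]
  refine sum_congr rfl fun p _ => ?_
  rw [sub_eq_add_neg, add_pow]

end RegBool
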