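import Pool.Agent.Lib.MP_8251dc_co.SP.SDefs

set_option autoImplicit false

open Finset

namespace RegBool

private theorem strans_isPO {α β : Type} {p : α → α → Bool} {g : β → α}
    (hg : Function.Injective g) (h : IsPO p) : IsPO (fun i j => p (g i) (g j)) :=
  ⟨fun _ => h.1 _, fun _ _ h1 h2 => hg (h.2.1 _ _ h1 h2), fun _ _ _ h1 h2 => h.2.2 _ _ _ h1 h2⟩

private theorem strans_NF {α β : Type} {p : α → α → Bool} (g : β → α) (h : NF p) :
    NF (fun i j => p (g i) (g j)) :=
  fun _ _ _ _ h1 h2 h3 => h _ _ _ _ h1 h2 h3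

private theorem strans_conn {α β : Type} [Fintype α] [DecidableEq α] [Fintype β] [DecidableEq β]
    {p : α → α → Bool} (g : β ≃ α) (h : Conn p) : Conn (fun i j => p (g i) (g j)) := by
  intro S hS hcl
  have h1 : S.map g.toEmbedding = univ := by
    apply h
    · exact hS.map
    · intro i j hij
      rw [mem_map_equiv, mem_map_equiv]
      apply hcl
      change p (g (g.symm i)) (g (g.symm j)) = true
      rw [g.apply_symm_apply, g.apply_symm_apply]
      exact hij
  ext b
  have h2 : g b ∈ S.map g.toEmbedding := by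
    rw [h1]
    exact mem_univ _
  rw [mem_map_equiv, g.symm_apply_apply] at h2
  exact ⟨fun _ => mem_univ _, fun _ => h2⟩

private theorem strans_ind {α β : Type} [Fintype α] [DecidableEq α] [Fintype β] [DecidableEq β]
    {p : α → α → Bool} (g : β ≃ α) (h : Ind p) : Ind (fun i j => p (g i) (g j)) := by
  intro S hS hcl
  have h1 : S.map g.toEmbedding = univ := by
    apply h
    · exact hS.map
    · intro i hi j hj
      rw [mem_map_equiv] at hi hj
      have h2 : p (g (g.symm i)) (g (g.symm j)) = true := hcl _ hi _ hj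
      rw [g.apply_symm_apply, g.apply_symm_apply] at h2
      exact h2
  ext b
  have h2 : g b ∈ S.map g.toEmbedding := by
    rw [h1]
    exact mem_univ _
  rw [mem_map_equiv, g.symm_apply_apply] at h2
  exact ⟨fun _ => mem_univ _, fun _ => h2⟩

private theorem strans_ndn {α β : Type} [Fintype α] [DecidableEq α] [Fintype β] [DecidableEq β]
    (e : α ≃ β) (p : α → α → Bool) : ndn p = ndn (fun i j => p (e.symm i) (e.symm j)) := by
  unfold ndn
  refine card_equiv e.finsetCongr fun S => ?_
  rw [mem_filter, mem_filter, Equiv.finsetCongr_apply]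
  constructor
  · rintro ⟨_, h⟩
    refine ⟨mem_univ _, fun i j hij hj => ?_⟩
    rw [mem_map_equiv] at hj ⊢
    exact h _ _ hij hj
  · rintro ⟨_, h⟩
    refine ⟨mem_univ _, fun i j hij hj => ?_⟩
    have h1 : p (e.symm (e i)) (e.symm (e j)) = true → e j ∈ S.map e.toEmbedding →
        e i ∈ S.map e.toEmbedding := h (e i) (e j)
    rw [mem_map_equiv, mem_map_equiv, e.symm_apply_apply, e.symm_apply_apply] at h1
    exact h1 hij hj

open Classical in
private theorem strans_gen {α β : Type} [Fintype α] [DecidableEq α] [Fintype β] [DecidableEq β]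
    (e : α ≃ β) (P : (α → α → Bool) → Prop) (Q : (β → β → Bool) → Prop)
    (h1 : ∀ p : α → α → Bool, P p → Q (fun i j => p (e.symm i) (e.symm j)))
    (h2 : ∀ q : β → β → Bool, Q q → P (fun i j => q (e i) (e j))) (f : ℕ → ℤ) :
    ∑ p ∈ cls α P, f (ndn p) = ∑ p ∈ cls β Q, f (ndn p) := by
  refine sum_equiv (Equiv.arrowCongr e (Equiv.arrowCongr e (Equiv.refl Bool))) ?_ ?_
  · intro p
    have hT : (Equiv.arrowCongr e (Equiv.arrowCongr e (Equiv.refl Bool))) p =
        fun i j => p (e.symm i) (e.symm j) := rfl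
    rw [hT]
    unfold cls
    simp only [mem_filter, mem_univ, true_and]
    constructor
    · rintro ⟨ha, hb, hc⟩
      exact ⟨strans_isPO e.symm.injective ha, strans_NF _ hb, h1 p hc⟩
    · rintro ⟨ha, hb, hc⟩
      have hp : (fun i j => (fun i j => p (e.symm i) (e.symm j)) (e i) (e j)) = p := by
        funext i j
        simp
      have ha' := strans_isPO e.injective ha
      have hb' := strans_NF (e : α → β) hb
      have hc' := h2 _ hc
      rw [hp] at ha' hb' hc'
      exact ⟨ha', hb', hc'⟩
  · intro p _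
    exact congrArg f (strans_ndn e p)

variable {α : Type} [Fintype α] [DecidableEq α]

/-- Relabelling. -/
theorem AA_type (f : ℕ → ℤ) : ∑ p ∈ cls α (fun _ => True), f (ndn p) =
    ∑ p ∈ cls (Fin (Fintype.card α)) (fun _ => True), f (ndn p) :=
  strans_gen (Fintype.equivFin α) _ _ (fun _ _ => trivial) (fun _ _ => trivial) f

theorem CC_type (f : ℕ → ℤ) : ∑ p ∈ cls α Conn, f (ndn p) =
    ∑ p ∈ cls (Fin (Fintype.card α)) Conn, f (ndn p) :=
  strans_gen (Fintype.equivFin α) _ _ (fun _ h => strans_conn (Fintype.equivFin α).symm h)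
    (fun _ h => strans_conn (Fintype.equivFin α) h) f

theorem DD_type (f : ℕ → ℤ) : ∑ p ∈ cls α Ind, f (ndn p) =
    ∑ p ∈ cls (Fin (Fintype.card α)) Ind, f (ndn p) :=
  strans_gen (Fintype.equivFin α) _ _ (fun _ h => strans_ind (Fintype.equivFin α).symm h)
    (fun _ h => strans_ind (Fintype.equivFin α) h) f

end RegBool
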